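import Pool.Agent.H95.ToepMain

set_option autoImplicit false

open scoped ComplexOrder
open Pool.Agent.H95.Toep

namespace Pool.Agent.Results.MP_76760e_an.Planar

theorem result (A : Type) [NonUnitalCStarAlgebra A] [PartialOrder A] [StarOrderedRing A] :
    (∀ L : Finset (Fin 2 → ℤ), (ExtProp ℂ L ↔ ExtProp A L)) ↔
      (Nontrivial A ∧ (∀ x y : A, x * y = y * x) ∧
        ∀ x y z : A, x * y = 0 → ∃ e : A, e * x = z * x ∧ e * y = 0) :=
  ⟨nec, fun ⟨_, h1, h2⟩ L => suff h1 h2 L⟩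

end Pool.Agent.Results.MP_76760e_an.Planar
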